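import Pool.Agent.H85.HG.LogBound

/-!
# A height gap for orbits of polynomial maps, and Zariski density

Let `K` be a number field and `f` any polynomial self-map of affine space (any dimension, no
hypothesis on `f`). For each `D ≥ 1` there is `c > 0` such that every orbit `(x_n)` of a
`D`-integral point satisfies one of the following.

* `h(x_n) > c n` for infinitely many `n`;
* `(x_n)` is eventually quasi-polynomial in `n`; then `h(x_n) = O(log n)`, and any two regular
  functions are algebraically dependent along the orbit (its Zariski closure has dimension at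
  most one).

Proof. Let `p ≥ 3` be a prime of good reduction. By the Taylor expansion an iterate of `f` is, near
a periodic residue class modulo `p` and after rescaling by `p`, congruent modulo `p` to an affine
map over a finite ring, some power of which is idempotent. Hence, along an arithmetic progression
of indices, the `k`-th finite difference of the orbit is divisible by `p ^ k` from the index `k`
on (no étaleness is needed). If `h(x_n) ≤ c n` for all large `n`, the product formula forces these
differences to vanish for indices in `[k, 2k]`, all large `k`, and then for all large indices.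
-/

set_option autoImplicit false

open Height NumberField MvPolynomial

namespace Pool.Agent.Results.MP_e3c919_ag.HeightGap

open Pool.Agent.H85.HG

theorem result {K : Type*} [Field K] [NumberField K] {σ : Type*} [Finite σ]
    (f : σ → MvPolynomial σ K) (D : ℕ) (hD : D ≠ 0) :
    ∃ c : ℝ, 0 < c ∧ ∀ x : ℕ → σ → K, (∀ n s, x (n + 1) s = eval (x n) (f s)) →
      (∀ s, ∃ e : ℕ, IsIntegral ℤ ((D : K) ^ e * x 0 s)) →
      (∀ N : ℕ, ∃ n ≥ N, c * n < affHeight (x n)) ∨
      ((∃ (n₀ b : ℕ) (P : ℕ → σ → Polynomial K), 0 < b ∧
          ∀ a m s, x (n₀ + a + b * m) s = (P a s).eval (m : K)) ∧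
        (∃ C : ℝ, ∀ n : ℕ, affHeight (x n) ≤ C * (1 + Real.log (n + 1))) ∧
        ∀ u v : MvPolynomial σ K, ∃ Q : MvPolynomial (Fin 2) K, Q ≠ 0 ∧
          ∀ n, eval ![eval (x n) u, eval (x n) v] Q = 0) := by
  obtain ⟨c, hc, h⟩ := gap f D hD
  refine ⟨c, hc, fun x hx hx0 => ?_⟩
  by_cases hslow : ∀ N : ℕ, ∃ n ≥ N, c * n < affHeight (x n)
  · exact Or.inl hslow
  · right
    push Not at hslow
    obtain ⟨N, hN⟩ := hslow
    obtain ⟨n₀, b, P, hb, hP⟩ := h x hx hx0
      ⟨N, fun n hn s => (logHeight₁_le_affHeight (x n) s).trans (hN n hn)⟩
    exact ⟨⟨n₀, b, P, hb, hP⟩, log_bound x n₀ b hb P hP,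
      fun u v => exists_relation_orbit x n₀ b hb P hP u v⟩

end Pool.Agent.Results.MP_e3c919_ag.HeightGap
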