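import Pool.Agent.GE.Window

/-!
# The heights along an orbit grow at least like a power of the degrees of the iterates

Let `K` be a number field and let `f` be a rational self-map of a projective space over `K`, given
by the finitely many tuples of forms `F t`.  Let `y 0, y 1, …` be an orbit of `f` whose Zariski
closure `X` is irreducible, and let `e_l` be the least degree of forms which represent `f ^ l` on
`X`.  For every `ρ > 0` there are `ε > 0` and `N₀`, which depend only on the forms `F t` and on
`ρ`, such that for all orbits as above, all `M`, all `N, B ≥ N₀` and all `l ≤ N ^ ε` with
`e_l > B` at least `N ^ (1 - ρ)` of the points `y n`, `M ≤ n ≤ M + N`, have height at least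
`min (N, B) ^ ε * log N`.

Proof.  Suppose that the heights are smaller for most of the indices, at a sequence of scales `N`
and for a sequence of orbits.  (1) Choose a large set of indices (`N ^ (1 - θ)` elements) whose
points satisfy relations of degree `N ^ o(1)` with the least possible dimension; by an effective
Noether normalisation there is a homogeneous prime of small complexity which vanishes on a large
subset, and a form of small degree outside of the prime has few zeros.  (2) Determinant method: by
the pigeonhole principle there is a place `v` of norm about `N ^ (2 η)` with good reduction along
the segments of length `N ^ η` which start in a large subset, whose points are congruent modulo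
`v`.  A determinant of products of `j` iterates is divisible by a large power of `v` and its
height is small, so it vanishes for `j = O(log R)`, where `R log N` bounds the heights.
(3) If the products of the coordinates of `j` shifts do not double their rank at some step, then
the shift is represented by forms of small degree on the prime; hence all the shifts by
`l ≤ N ^ η` are.  (4) The image primes have small complexity, two of them share a large set of
points, and by an effective form of the theorem of Cayley and Hamilton their zero sets are cut out
by forms of small degree; so the orbit stays in the union of finitely many of them, and by
irreducibility one of them contains the whole orbit.  Thus forms of small degree which vanish on a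
large set of points of the orbit vanish on `X`.  (5) Apply (2) on the interval from `N` to `2 N`
with shifts chosen greedily such that the rank of the products doubles on `X` at each step; this
is possible up to the degree `B`.  The relation of (2) contradicts (4).
-/

set_option autoImplicit false

open MvPolynomial

namespace Pool.Agent.Results.MP_e3c919_ag.HeightVersusDegree

open Pool.Agent.GT Pool.Agent.GE

/-- **Heights along orbits and degrees of iterates.** -/
theorem result {K T ι : Type} [Field K] [NumberField K] [Finite T] [Fintype ι]
    (δ : T → ℕ) (F : T → ι → MvPolynomial ι K) (ρ : ℝ) (hρ : 0 < ρ) :
    ∃ ε : ℝ, 0 < ε ∧ ∃ N₀ : ℕ, ∀ y : ℕ → ι → K, Orb δ F y → Irr y →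
      ∀ M N l B : ℕ, N₀ ≤ N → N₀ ≤ B → (l : ℝ) ≤ (N : ℝ) ^ ε →
        (∀ e ≤ B, ∀ Φ : ι → MvPolynomial ι K, ¬ Rep y l e Φ) →
        (N : ℝ) ^ (1 - ρ) ≤ highIn y M N (((min N B : ℕ) : ℝ) ^ ε * Real.log N) :=
  final_w δ F ρ hρ

end Pool.Agent.Results.MP_e3c919_ag.HeightVersusDegree
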