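import Pool.Agent.KST.Main

/-!
# Arithmetic degrees and dense orbits for skew products over a translation

Let `K` be a number field and let `f(x, y, z) = (x + 1, P(x; y), S(x; y; z))` be a rational
self-map of `P^1 × P^r × P^s` over `K`, where the `P_i` are forms of degree `d ≥ 2` in `y` without
common zero for generic `x`, and the `S_i` are forms of degree `e` in `y` and `d' ≤ d` in `z`
(coefficients in `K[X]`).  Let `(x_n, y_n, z_n)`, `x_n = x_0 + n`, be a forward orbit.  Then

* either `max(1, h(x_n) + h(y_n) + h(z_n)) ^ (1/n) → d = λ_1(f)`,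
* or `h(x_n) + h(y_n) = O(log n)`, and every two coordinates of `y` satisfy a nonzero homogeneous
  relation over `K[X]` at all the points `(x_n; y_n)`; so the points `(x_n, y_n)` lie in a closed
  subset of `P^1 × P^r` of dimension at most one and the orbit is not Zariski dense (`r ≥ 1`).

Proof.  The heights of `y_n` grow like `d ^ n` or are `O(log n)`.  In the second case we use the
determinant method of Bombieri-Pila and Heath-Brown with the products of the coordinates of `k`
consecutive iterates: they span all forms of degree at least `d ^ k`, but at a point of the orbit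
the height of their vector is only `O(k log n)`.  Hence the points with `N ≤ n < 2 N` lie on
`O(N ^ (1/4))` curves of bounded degree over `K(X)`.  Most consecutive points define curves mapped
to each other by the shift, two of these curves coincide, and the orbit stays on a periodic curve.
-/

set_option autoImplicit false

open Polynomial Height Filter

namespace Pool.Agent.Results.MP_e3c919_ag.SkewTranslation

open Pool.Agent.KST

/-- **Skew products over a translation.** -/
theorem result {K : Type} [Field K] [NumberField K] {ι κ : Type} [Fintype ι] [Nonempty ι]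
    [Finite κ] (d e d' : ℕ) (hd : 2 ≤ d) (hd' : d' ≤ d)
    (P : ι → MvPolynomial ι K[X]) (hP : IsSkew d P) (S : κ → MvPolynomial (ι ⊕ κ) K[X])
    (x₀ : K) (y : ℕ → ι → K) (z : ℕ → κ → K) (hy : IsOrbit P x₀ y)
    (hz : IsTower e d' S x₀ y z) :
    (Tendsto (fun n : ℕ => (max 1 (logHeight₁ (x₀ + (n : K)) + logHeight (y n))) ^
        ((1 : ℝ) / n)) atTop (nhds (d : ℝ)) ∧
      Tendsto (fun n : ℕ => (max 1 (logHeight₁ (x₀ + (n : K)) + logHeight (y n) +
        logHeight (z n))) ^ ((1 : ℝ) / n)) atTop (nhds (d : ℝ))) ∨
    ((∃ C : ℝ, ∀ n : ℕ, logHeight₁ (x₀ + (n : K)) + logHeight (y n) ≤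
        C * Real.log ((n : ℝ) + 2)) ∧
      Tendsto (fun n : ℕ => (max 1 (logHeight₁ (x₀ + (n : K)) + logHeight (y n))) ^
        ((1 : ℝ) / n)) atTop (nhds (1 : ℝ)) ∧
      ∀ i j, ∃ (m : ℕ) (G : MvPolynomial (Fin 2) K[X]), G ≠ 0 ∧ G.IsHomogeneous m ∧
        ∀ n : ℕ, evx (x₀ + n) ![y n i, y n j] G = 0) :=
  dichotomy d e d' hd hd' P hP S x₀ y z hy hz

end Pool.Agent.Results.MP_e3c919_ag.SkewTranslation
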