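import Pool.Agent.H85.HG.Tri

/-!
# Arithmetic degrees of triangular polynomial maps

`f(x_0, ..., x_(N-1)) = (R_0(x_0), R_1(x_0, x_1), ..., R_(N-1)(x_0, ..., x_(N-1)))`, where `R_i` is
a polynomial of degree at least one in `x_i`. The arithmetic degree of every orbit exists as soon
as, for each `i ≥ 2`, the leading coefficient of `R_i` with respect to `x_i` does not vanish on the
orbit from some time on (for instance, if it is constant). For `N ≤ 2` there is no condition: the
arithmetic degree exists at every point for every polynomial skew product of the plane.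
-/

set_option autoImplicit false

open Height NumberField Polynomial Filter Topology

namespace Pool.Agent.Results.MP_e3c919_ag.TriangularDegree

open Pool.Agent.H85.HG

theorem result {K : Type*} [Field K] [NumberField K] (N : ℕ)
    (R : (i : Fin N) → (MvPolynomial (Fin i) K)[X]) (hR : ∀ i, 1 ≤ (R i).natDegree)
    (z : ℕ → Fin N → K)
    (hz : ∀ n i, z (n + 1) i =
      ((R i).map (MvPolynomial.eval fun j => z n (Fin.castLE i.is_lt.le j))).eval (z n i))
    (hlc : ∀ i : Fin N, 2 ≤ (i : ℕ) → ∃ n₀, ∀ n ≥ n₀,
      MvPolynomial.eval (fun j => z n (Fin.castLE i.is_lt.le j)) (R i).leadingCoeff ≠ 0) :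
    ∃ α : ℝ, Tendsto (fun n : ℕ => (max (affHeight (z n)) 1) ^ ((n : ℝ)⁻¹)) atTop (𝓝 α) :=
  tri N R hR z hz hlc

end Pool.Agent.Results.MP_e3c919_ag.TriangularDegree
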